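import Pool.Agent.H413Z.Torus.Real

/-!
A 40-cell polyomino and a tiling of the plane by copies of it such that no subfamily of tiles has a
union that is a fundamental domain of a lattice `n ℤ × m ℤ`.
The tiles sit on the lattice spanned by `(5, 5)` and `(-4, 4)`; each diagonal row and each diagonal
column carries a free bit, and the bits are taken from paperfolding sequences.
-/

set_option autoImplicit false

open Pool.Agent.H413Z.Torus

namespace Pool.Agent.Results.MP_df5726_co.NoTorus

theorem result : ∃ (P : Set (ℝ × ℝ)) (T : Set (Set (ℝ × ℝ))), IsPolyomino P ∧ IsTiling P T ∧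
    ∀ m n : ℕ, 1 ≤ m → 1 ≤ n → ∀ S : Set (Set (ℝ × ℝ)), S ⊆ T → ¬ IsFundDomain m n (⋃₀ S) :=
  main

end Pool.Agent.Results.MP_df5726_co.NoTorus
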